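import Mathlib
import Pool.Agent.H692.BX.Upper
import Pool.Agent.H692.BX.Final

/-!
# Triangle detection with matrix multiplications: the exponent `2 ω / (ω + 1)` is optimal

The algorithm of Alon, Yuster and Zwick finds triangles in a graph with `m` edges in time
`O (m ^ (2 ω / (ω + 1)))`. It checks, for all paths `x - y - z` whose middle vertex `y` comes before
`x` and `z` in a certain order of the vertices, whether `x` and `z` are adjacent; this is done by
multiplications of matrices (for `y` with a high degree) and by enumeration of the paths (for `y` with
a low degree). Could a more clever combination of matrix multiplications and enumerations be faster?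
For instance with many rectangular matrix multiplications of different sizes for different parts of
the graph, found in the best possible way for this graph, and another order of the vertices.

* `Box V` (three sets `A`, `B`, `C` of vertices): one multiplication of the matrices of adjacency
  between `A` and `B` and between `B` and `C`. It deals with all paths `x - y - z` with `x ∈ A`,
  `y ∈ B`, `z ∈ C` (`Box.paths G b`, with `x ≠ z`).
* `mulCost ω a b c = max ((a b c) ^ (ω / 3), a b, b c, a c)`, `Box.cost ω b`: the cost of the
  multiplication of an `a × b` matrix and a `b × c` matrix. For square matrices this is `a ^ ω`. For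
  rectangular matrices the cost cannot be less (up to a factor `(a b c) ^ o(1)`), as the exponent of
  matrix multiplication is `ω` and the entries have to be read and written.
* `Covers G r b`: the boxes `b i` cover all paths `x - y - z` in `G`, `x ≠ z`, whose middle vertex
  `y` comes before `x` and `z` in the order given by the numbers `r v` of the vertices.

Result, for all real `ω` with `2 ≤ ω ≤ 3`:

1. Every graph with `m` edges has an order of the vertices and a covering by boxes of total cost at
   most `10 m ^ (2 ω / (ω + 1))`. (This is the algorithm of Alon, Yuster and Zwick.)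
2. For every `m ≥ 2 ^ 16` there is a bipartite graph with at most `m` edges such that for every order
   of the vertices and every covering the total cost is at least
   `m ^ (2 ω / (ω + 1)) / (2 ^ 17 (log₂ m) ^ 2)`. Here one has to pay for each box only the minimum of
   the cost of the multiplication and the number of paths in the box, so enumeration of all paths
   in a box is also allowed.

Proof of 2. A random bipartite graph with `n ^ (2 / (ω + 1))`-like number of vertices and density `1 / q`,
`q = n ^ ((3 - ω) / 2)`, has between any sets `A`, `B` at most `2 |A| |B| / q + 3 (|A| + |B|) log n`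
edges (exponential moments). It follows that in every box at most `112 (log n) ^ 2` times the cost
many paths are found: the vertices with more than `4 |A| / q + 6 log n` neighbours in `A` have
altogether at most `6 |A| log n` neighbours there. But for any order of the vertices the number
of the paths with the middle vertex first is at least `m ^ (2 ω / (ω + 1)) / 512`.
-/

set_option autoImplicit false

namespace Pool.Agent.Results.MP_ad5e8e_lc.BoxCovers

open Pool.Agent.H692.BX

/-- For `2 ≤ ω ≤ 3`: every graph with `m` edges has an order of the vertices and a covering by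
boxes of total cost at most `10 m ^ (2 ω / (ω + 1))`; and for all `m ≥ 2 ^ 16` there is a bipartite
graph with at most `m` edges for which, for all orders of the vertices and all coverings by boxes, the
sum of the minima of the cost and the number of paths in the box is at least
`m ^ (2 ω / (ω + 1)) / (2 ^ 17 (log₂ m) ^ 2)`. -/
theorem result (ω : ℝ) (h2 : 2 ≤ ω) (h3 : ω ≤ 3) :
    (∀ (V : Type) [Fintype V] (G : SimpleGraph V),
      ∃ (r : V → ℕ) (ι : Type) (_ : Fintype ι) (b : ι → Box V), Function.Injective r ∧
        Covers G r b ∧
        ∑ i, (b i).cost ω ≤ 10 * (Nat.card G.edgeSet : ℝ) ^ (2 * ω / (ω + 1))) ∧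
    (∀ m : ℕ, 2 ^ 16 ≤ m → ∃ (V : Type) (_ : Fintype V) (G : SimpleGraph V), G.Colorable 2 ∧
      Nat.card G.edgeSet ≤ m ∧
      ∀ (r : V → ℕ) (ι : Type) [Fintype ι] (b : ι → Box V), Function.Injective r →
        Covers G r b →
        (m : ℝ) ^ (2 * ω / (ω + 1)) / (2 ^ 17 * Real.logb 2 m ^ 2) ≤
          ∑ i, min ((b i).cost ω) (((b i).paths G).ncard : ℝ)) := by
  refine ⟨fun V _ G => upper ω h2 h3 G, fun m hm => ?_⟩
  obtain ⟨n, E, hcard, hlow, hbox⟩ := exists_graph h2 h3 hm
  refine ⟨Fin n ⊕ Fin n, inferInstance, bip E, ?_, (card_edgeSet_le E).trans hcard, ?_⟩
  · have C : (bip E).Coloring Bool := SimpleGraph.Coloring.mk Sum.isLeft (by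
      intro u v h
      rcases u with x | x <;> rcases v with y | y
      · exact absurd h bip_ll
      · simp
      · simp
      · exact absurd h bip_rr)
    simpa using C.colorable
  · intro r ι _ b hr hcov
    have hm' : ((2 : ℝ)) ^ (16 : ℕ) ≤ (m : ℝ) := by exact_mod_cast hm
    have hm0 : (0 : ℝ) < m := by
      have : (0 : ℝ) < 2 ^ (16 : ℕ) := by positivity
      linarith
    have hL : (16 : ℝ) ≤ Real.logb 2 m := by
      rw [Real.le_logb_iff_rpow_le (by norm_num) hm0]
      rw [show (16 : ℝ) = ((16 : ℕ) : ℝ) by norm_num, Real.rpow_natCast]
      exact hm'
    set L : ℝ := Real.logb 2 m with hLd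
    have h1 := hlow r hr
    have h4 : ((lowPaths (bip E) r).ncard : ℝ) ≤ ∑ i, (((b i).paths (bip E)).ncard : ℝ) := by
      exact_mod_cast lowPaths_le hcov
    have h5 : ∀ i, (((b i).paths (bip E)).ncard : ℝ) ≤
        224 * L ^ 2 * min ((b i).cost ω) (((b i).paths (bip E)).ncard : ℝ) := by
      intro i
      have hone : 1 ≤ 224 * L ^ 2 := by nlinarith
      rcases le_total ((b i).cost ω) (((b i).paths (bip E)).ncard : ℝ) with h | h
      · rw [min_eq_left h]
        exact hbox (b i)
      · rw [min_eq_right h]
        have : (0 : ℝ) ≤ ((b i).paths (bip E)).ncard := by positivity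
        nlinarith
    have h6 : (m : ℝ) ^ (2 * ω / (ω + 1)) / 512 ≤
        224 * L ^ 2 * ∑ i, min ((b i).cost ω) (((b i).paths (bip E)).ncard : ℝ) := by
      rw [Finset.mul_sum]
      exact h1.trans (h4.trans (Finset.sum_le_sum (fun i _ => h5 i)))
    have hS : 0 ≤ ∑ i, min ((b i).cost ω) (((b i).paths (bip E)).ncard : ℝ) :=
      Finset.sum_nonneg (fun i _ => le_min (mulCost_nonneg _ _ _ _) (by positivity))
    rw [div_le_iff₀ (by positivity)]
    rw [div_le_iff₀ (by norm_num)] at h6
    refine h6.trans ?_
    have hL2 : 0 ≤ L ^ 2 * ∑ i, min ((b i).cost ω) (((b i).paths (bip E)).ncard : ℝ) := by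
      positivity
    nlinarith

end Pool.Agent.Results.MP_ad5e8e_lc.BoxCovers
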