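import Pool.Agent.H698.UF.TriUp
import Pool.Agent.H660.UT.Pref

/-!
# Triangle detection in graphs with `m` edges by circuits that compute with unknown inputs and make
few tests of unknownness

The input is a graph on the vertex set `Fin n`: each pair of vertices is known to be an edge, known
not to be an edge, or unknown (`Know (Sym2 (Fin n))`). The gates of a circuit have values in an
ordered set `D` of states of knowledge. Most gates apply arbitrary functions `D → D → D` that respect
the order: more knowledge about the arguments gives more knowledge about the value. In addition there
are `t` free gates, which apply arbitrary functions `D → D`; they may test whether a value is unknown,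
replace unknown by a default value, or forget something (`FCirc t`). `D` is any partially ordered set
in which the elements below a given one form a chain with at most `H + 1` elements (`Height D H`).

* `H = 1`: `D` is the flat order over any set `A`, for instance the set of the machine words. The
  gates apply ARBITRARY operations `A → A → A` (arithmetic, bitwise, comparisons, selections, ...) as
  soon as the arguments are known. For `A = Bool` these are the hazard-free (three-valued) circuits
  with arbitrary binary gates, negations included, and with `t` gates which detect hazards.
* `H = w`: `D` is the set of the words of `w` bits of which some leading bits are known (`Pref w`).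

The edges of a graph with at most `m` edges are given, and nothing is known about the other pairs. The
circuit has to tell whether there is a triangle, with probability at least `1 / 2 + δ` (`SolvesK`).

(1) Let `γ ≥ 0`, `θ > 0` and `2 θ / 3 + γ < 1`. For all large `m` and all `n` with `n ^ 2 ≥ m`, every
such randomised circuit with `(H + 1) ^ t ≤ m ^ γ` has an expected number of gates of at least
`(δ - m ^ (-α)) m ^ θ / (7 H ^ 2 (H + 1) ^ t)`. For `H = 1` and `γ log₂ m` free gates this is
`m ^ (3 / 2 - 5 γ / 2 - o(1))`, which is superlinear for all `γ < 1 / 5`, and with `o(log m)` free
gates it is `m ^ (3 / 2 - o(1))`, the running time of the algorithm of Itai and Rodeh. Note that one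
free gate for each pair of vertices (replace unknown by no) gives complete knowledge, and then fast
matrix multiplication can be used.

(2) For `n ≥ 2` some circuit over `Flat Bool` without free gates and with at most `4 n ^ 3` gates (this
is `O(m ^ (3 / 2))` if `n ^ 2` is of the order of `m`) solves the problem without errors.

Proof of (1). For each sequence of results of the free gates the circuit is monotone, and the value of
each gate is below its value for the complete graph, so that it lies in a chain with at most `H + 1`
elements, and its rank is computed by AND and OR gates. A free gate is replaced by one arbitrary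
Boolean gate, which reads the `H` bits of the rank of its argument (selected according to the results
of the earlier free gates); as the result only depends on this rank, there are at most
`(H + 1) ^ t` sequences of results. This gives a circuit of AND and OR gates with `t` arbitrary gates
of fan-in `H`, and the library result `RandomizedNotGates` for such circuits applies. (The case
`t = 0` is due to `helper660`, see `UnknownInputWords`; (2) is taken from there.)
-/

set_option autoImplicit false

namespace Pool.Agent.Results.MP_ad5e8e_lc.UnknownInputTests

open Filter Pool.Agent.H698.HF Pool.Agent.H698.UF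
open Pool.Agent.H660.UT (Height Pref height_flat height_pref)

theorem result :
    -- (1) the lower bound
    (∀ γ θ : ℝ, 0 ≤ γ → 0 < θ → 2 / 3 * θ + γ < 1 → ∃ α : ℝ, 0 < α ∧ ∀ᶠ m : ℕ in atTop,
      ∀ n : ℕ, m ≤ n ^ 2 → ∀ (D : Type) [PartialOrder D] (H : ℕ), 1 ≤ H → Height D H →
      ∀ t : ℕ, ((H : ℝ) + 1) ^ t ≤ (m : ℝ) ^ γ →
      ∀ (δ : ℝ) (Ω : Type) [Fintype Ω] (p : Ω → ℝ) (l : Ω → List (Know (Sym2 (Fin n)) → D)),
        (∀ ω, ∃ t' ≤ t, FCirc t' (l ω)) → SolvesK m δ p l →
        (δ - (m : ℝ) ^ (-α)) * (m : ℝ) ^ θ ≤
          7 * (H : ℝ) ^ 2 * ((H : ℝ) + 1) ^ t * ∑ ω, p ω * ((l ω).length : ℝ)) ∧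
    -- (2) the upper bound
    (∀ n : ℕ, 2 ≤ n → ∃ l : List (Know (Sym2 (Fin n)) → Flat Bool), FCirc 0 l ∧
      l.length ≤ 4 * n ^ 3 ∧ ∀ m : ℕ, SolvesK m (1 / 2) (fun _ : Unit => 1) (fun _ => l)) ∧
    -- (3) the orders
    (∀ A : Type, Height (Flat A) 1 ∧ (Nonempty A → ∀ (f : A → A → A)
      (x x' y y' : Flat A), x ≤ x' → y ≤ y' → Flat.ext f x y ≤ Flat.ext f x' y')) ∧
    ∀ w : ℕ, Height (Pref w) w :=
  ⟨fun _ _ h1 h2 h3 => lowerTF h1 h2 h3, fun _ hn => upperTF hn,
    fun A => ⟨height_flat A, fun hA f x x' y y' hx hy => Flat.ext_mono' f x x' y y' hx hy⟩,
    height_pref⟩

end Pool.Agent.Results.MP_ad5e8e_lc.UnknownInputTests
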