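import Pool.Agent.H660.UT.Up
import Pool.Agent.H660.UT.Pref
import Pool.Agent.H660.UR.Tri

/-!
# Triangle detection in graphs with `m` edges by programs that compute with unknown inputs

The input is a graph on the vertex set `Fin n`: each pair of vertices is known to be an edge, known
not to be an edge, or unknown (`Know (Sym2 (Fin n))`). The gates of a circuit have values in an
ordered set `D` of states of knowledge and apply arbitrary functions `D → D → D` that respect the
order: more knowledge about the arguments gives more knowledge about the value. `D` is any partially
ordered set in which the elements below a given one form a chain with at most `H + 1` elements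
(`Height D H`).

* `H = 1`: `D` is the flat order over any set `A`, for instance the set of the machine words of any
  length, of matrices or of real numbers. The gates apply ARBITRARY operations `A → A → A` (all the
  instructions of the word RAM: arithmetic, Boolean, comparisons, selections, ...) as soon as the
  arguments are known; with their most precise extensions (`Flat.ext`) they may also give a value
  when an argument is unknown and irrelevant. For `A = Bool` these are the hazard-free
  (three-valued) circuits with arbitrary binary gates, negations included.
* `H = w`: `D` is the set of the words of `w` bits of which some leading bits are known (`Pref w`).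

The circuits have to detect triangles in the graphs with at most `m` edges only, with advantage `δ`
(`SolvesT m δ p l`): the answer is yes with probability at least `1 / 2 + δ` if the graph has a
triangle and its edges are known (all other pairs may be unknown), and the answer is not yes with
probability at least `1 / 2 + δ` if the graph has no triangle and everything is known.

(1) For every exponent `θ < 3 / 2`, all large `m` and all `n` with `n ^ 2 ≥ m`, every such randomised
circuit has an expected number of gates of at least `(δ - m ^ (-α)) m ^ θ / (4 H ^ 2)`. As
`H = O(log n)` for the machine words, this is `m ^ (3 / 2 - o(1))`, the running time of the algorithm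
of Itai and Rodeh, and better than fast matrix multiplication, whose cancellations need complete
knowledge.

The same holds for random access machines (`Machine`) whose operations wait for their arguments. The
words, the addresses and the states are arbitrary (also infinite) sets. In each step the machine
needs the word in one cell, and stops for ever if it is unknown. It changes one cell, whose new
contents is an order-preserving function of the contents of two cells, which may be unknown, or the
translation of one bit of the input, and it goes to the next state. The cells, the function, the bit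
and the next state depend on the word in an arbitrary way (indirect addressing, jumps). If such
machines, stopped after `T ω` steps, solve the problem with advantage `δ` (`DetectsT m δ p R T`: the
answer is yes if the machine comes to a state in `yes`), then
`8 E[T] + 4 ≥ (δ - m ^ (-α)) m ^ θ` for the expectation of `T`.

(2) Some three-valued circuit with at most `4 n ^ 3` gates (this is `O(m ^ (3 / 2))` if `n ^ 2` is of
the order of `m`) solves the problem without errors, and it finds out, for every partial knowledge
about the graph, whether it is known to have a triangle and whether it is known to have none.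

Proof of (1). Declare the non-edges unknown. The value of each gate is then below its value for the
complete graph all of whose edges are known, so that it lies in a chain with at most `H + 1`
elements, and it is given by `H` bits (is its rank at least `j`?). These bits are computed by at most
`4 H ^ 2` AND and OR gates from those of the arguments. The average-case bound of the library result
`RandomizedNotGates` for circuits of AND and OR gates applies. A machine makes, if the non-edges are
unknown, the same steps as for the complete graph all of whose edges are known, until it stops. So
two gates for each step give the contents of the memory, and tell whether it has not yet stopped.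
-/

set_option autoImplicit false

namespace Pool.Agent.Results.MP_ad5e8e_lc.UnknownInputWords

open Filter Pool.Agent.H698.HF Pool.Agent.H660.UT Pool.Agent.H660.UR
open Flat (unknown known)

theorem result :
    -- (1) the lower bound
    (∀ θ : ℝ, 0 < θ → θ < 3 / 2 → ∃ α : ℝ, 0 < α ∧ ∀ᶠ m : ℕ in atTop, ∀ n : ℕ, m ≤ n ^ 2 →
      -- for circuits
      (∀ (D : Type) [PartialOrder D] (H : ℕ), 1 ≤ H → Height D H →
        ∀ (δ : ℝ) (Ω : Type) [Fintype Ω] (p : Ω → ℝ) (l : Ω → List (Know (Sym2 (Fin n)) → D)),
          (∀ ω, Circ (l ω)) → SolvesT m δ p l →
          (δ - (m : ℝ) ^ (-α)) * (m : ℝ) ^ θ ≤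
            4 * (H : ℝ) ^ 2 * ∑ ω, p ω * ((l ω).length : ℝ)) ∧
      -- for random access machines
      (∀ (δ : ℝ) (A W Q Ω : Type) [Fintype Ω] (p : Ω → ℝ)
        (R : Ω → Machine (Sym2 (Fin n)) A W Q) (T : Ω → ℕ), DetectsT m δ p R T →
        (δ - (m : ℝ) ^ (-α)) * (m : ℝ) ^ θ ≤ 8 * ∑ ω, p ω * (T ω : ℝ) + 4)) ∧
    -- (2) the upper bound
    (∀ n : ℕ, 2 ≤ n → ∃ l : List (Know (Sym2 (Fin n)) → Flat Bool), Circ l ∧
      l.length ≤ 4 * n ^ 3 ∧
      (∀ m : ℕ, SolvesT m (1 / 2) (fun _ : Unit => 1) (fun _ => l)) ∧
      ∃ out ∈ l, ∀ P : Know (Sym2 (Fin n)),
        (∃ G : SimpleGraph (Fin n), Le P (full (· ∈ G.edgeSet))) →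
          (out P = known true ↔
            ∀ G : SimpleGraph (Fin n), Le P (full (· ∈ G.edgeSet)) → ¬ G.CliqueFree 3) ∧
          (out P = known false ↔
            ∀ G : SimpleGraph (Fin n), Le P (full (· ∈ G.edgeSet)) → G.CliqueFree 3)) ∧
    -- (3) the orders
    (∀ A : Type, Height (Flat A) 1 ∧ (Nonempty A → ∀ (f : A → A → A)
      (x x' y y' : Flat A), x ≤ x' → y ≤ y' → Flat.ext f x y ≤ Flat.ext f x' y')) ∧
    ∀ w : ℕ, Height (Pref w) w := by
  refine ⟨?_, fun n hn => upperT hn, fun A => ⟨height_flat A,
    fun hA f x x' y y' hx hy => Flat.ext_mono' f x x' y y' hx hy⟩, height_pref⟩
  intro θ h1 h2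
  obtain ⟨α, hα, h⟩ := lowerT h1 h2
  refine ⟨α, hα, ?_⟩
  filter_upwards [h] with m hm
  intro n hn
  have key : ∀ (D : Type) [PartialOrder D] (H : ℕ), 1 ≤ H → Height D H →
      ∀ (δ : ℝ) (Ω : Type) [Fintype Ω] (p : Ω → ℝ) (l : Ω → List (Know (Sym2 (Fin n)) → D)),
        (∀ ω, Circ (l ω)) → SolvesT m δ p l →
        (δ - (m : ℝ) ^ (-α)) * (m : ℝ) ^ θ ≤
          4 * (H : ℝ) ^ 2 * ∑ ω, p ω * ((l ω).length : ℝ) := by
    intro D _ H hH hD δ Ω _ p l hl hs
    refine (hm n hn D H hD δ Ω p l hl hs).trans ?_
    have hE : 0 ≤ ∑ ω, p ω * ((l ω).length : ℝ) :=
      Finset.sum_nonneg fun ω _ => mul_nonneg (hs.1 ω) (Nat.cast_nonneg _)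
    have hH' : (1 : ℝ) ≤ H := by exact_mod_cast hH
    refine mul_le_mul_of_nonneg_right ?_ hE
    nlinarith
  exact ⟨key, fun δ A W Q Ω _ p R T hR => lowerM key δ p R T hR⟩

end Pool.Agent.Results.MP_ad5e8e_lc.UnknownInputWords
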